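import Mathlib
import Pool.Agent.Q87.IntTreeHyp

/-!
# MP_349e68: a hypercyclic composition operator all of whose backward orbits are infinite

The tree has vertex set `ℤ` and root `0`; the parent of `x ≠ 0` is `x - sgn(x) 2 ^ ⌊log₄ |x|⌋`. The
symbol is `φ x = x + 1`.
-/

set_option autoImplicit false

namespace Pool.Agent.Results.MP_349e68_an.InfiniteBackwardOrbit

open Q87.LipTree

/-- The symbol: translation by one. -/
def phi (x : ℤ) : ℤ := x + 1

/-- `N_v(φ) = {n ≥ 1 : φ^{-n}({v}) ≠ ∅}`. -/
def backTimes {V : Type*} (φ : V → V) (v : V) : Set ℕ := {n | 1 ≤ n ∧ ∃ w, φ^[n] w = v}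

/-- **Negative answer to Q1 of MP_349e68.** On the rooted tree `intTree` (vertex set `ℤ`) the map
`φ x = x + 1` induces a bounded composition operator `C_φ` on the little Lipschitz space, `λ C_φ` is
hypercyclic for every `λ` with `|λ| = 1`, and `N_v(φ)` is the set of all positive integers, in
particular infinite, for every vertex `v`. -/
theorem result : ∃ C : LipZero intTree →L[ℂ] LipZero intTree,
    (∀ (f : LipZero intTree) (x : ℤ), C f x = f (phi x)) ∧
    (∀ lam : ℂ, ‖lam‖ = 1 → Hypercyclic (lam • C)) ∧
    (∀ v : ℤ, backTimes phi v = {n | 1 ≤ n} ∧ (backTimes phi v).Infinite) := by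
  refine ⟨shiftOp, fun f x => rfl, shiftOp_hypercyclic, fun v => ?_⟩
  have hiter : ∀ (n : ℕ) (x : ℤ), phi^[n] x = x + n := by
    intro n
    induction n with
    | zero => intro x; simp
    | succ n ih =>
      intro x
      rw [Function.iterate_succ_apply, ih]
      unfold phi
      push_cast; ring
  have heq : backTimes phi v = {n | 1 ≤ n} := by
    apply Set.Subset.antisymm
    · exact fun n hn => hn.1
    · intro n hn
      exact ⟨hn, v - n, by rw [hiter]; ring⟩
  refine ⟨heq, ?_⟩
  rw [heq]
  exact Set.Ici_infinite 1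

end Pool.Agent.Results.MP_349e68_an.InfiniteBackwardOrbit
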